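import Pool.Agent.H71.CO.Targets

/-!
Row ORD of the board cqo_modules (`MP_5607ba_lc`): assembly of the dichotomy for linearly ordered
models of a sentence with two variables and counting quantifiers.
-/

set_option autoImplicit false

open Set

namespace Pool.Agent.H77.CO

open Pool.Agent.H71.CQ (Formula Holds Iso IsIso)
open Pool.Agent.H71.CO

/-- the set of all 0-1-sequences is uncountable -/
theorem not_ctb : ¬ (univ : Set (ℕ → Bool)).Countable := by
  intro h
  obtain ⟨f, hf⟩ := h.exists_eq_range univ_nonempty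
  have h1 : (fun n => !(f n n)) ∈ range f := by
    rw [← hf]
    exact mem_univ _
  obtain ⟨k, hk⟩ := h1
  have h2 := congrFun hk k
  cases h3 : f k k <;> rw [h3] at h2 <;> simp at h2

open Classical in
theorem pf_ORD (hINK : T_INK) (hRIG : T_RIG) (hMSR : T_MSR) (hRHB : T_RHB) (hFIX : T_FIX)
    (hREP : T_REP) : T_ORD := by
  intro C _ _ φ P hP
  by_cases hp : PerfK (KO φ P)
  · exact Or.inr hp
  have hK := hMSR C φ P hP
  by_cases hfin : ∀ x ∈ KO φ P, ∀ a, {b | ∀ ψ : Formula C, Tru x ψ b b ↔ Tru x ψ a a}.Finite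
  · exact hRIG C (KO φ P) hK fun e he g hg => hFIX C P e he.2 (hfin e he) g hg
  · exfalso
    push Not at hfin
    obtain ⟨x, hx, a, ha⟩ := hfin
    obtain ⟨hr1, hr2⟩ := hRHB C P hP
    have h1 := hINK C (KO φ P) hK hp 2 (ℕ → Bool)
      (fun x z n => decide (n ∈ Rho (fun a b => x a b ∈ P) (z 0) (z 1)))
      (fun z => hr1 (z 0) (z 1)) (fun e e' g hg z => by
        funext n
        have h2 : Rho (fun a b => e' a b ∈ P) ((g ∘ z) 0) ((g ∘ z) 1) =
            Rho (fun a b => e a b ∈ P) (z 0) (z 1) :=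
          hr2 ℕ ℕ (fun a b => e a b ∈ P) (fun a b => e' a b ∈ P) g
            (fun u v => by rw [hg u v]) (z 0) (z 1)
        simp only [h2])
    refine not_ctb (h1.mono fun y _ => ?_)
    obtain ⟨x', hx', u, v, huv⟩ := hREP C φ P x hx a ha {n | y n = true}
    refine ⟨x', ![u, v], hx', ?_⟩
    funext n
    have h3 : (![u, v] : Fin 2 → ℕ) 0 = u := rfl
    have h4 : (![u, v] : Fin 2 → ℕ) 1 = v := rfl
    simp only [h3, h4, huv, mem_ofPred_eq, Bool.decide_eq_true]

end Pool.Agent.H77.CO
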